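import Pool.Agent.Helper25_CON.Stmts

/-!
# Squad CON: B_HEN (Hensel and the Chinese remainder theorem), B_SPN (the smooth vectors generate)
-/

set_option autoImplicit false

namespace Pool.Agent.CON.H70

open Pool.Agent.CON

section qf
variable {A : Type} [AddCommGroup A] {b : A → A → ℤ} {q : A → ℤ}

theorem add_right (h : QF b q) (x y z : A) : b x (y + z) = b x y + b x z := by
  rw [h.symm, h.add_left, h.symm y, h.symm z]

theorem zero_left (h : QF b q) (y : A) : b 0 y = 0 := by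
  have := h.add_left 0 0 y
  rw [add_zero] at this
  linarith

/-- the form as an additive map -/
def lin (h : QF b q) (y : A) : A →+ ℤ where
  toFun x := b x y
  map_zero' := zero_left h y
  map_add' x z := h.add_left x z y

theorem smul_left (h : QF b q) (t : ℤ) (x y : A) : b (t • x) y = t * b x y := by
  have := map_zsmul (lin h y) t x
  simpa [lin] using this

theorem smul_right (h : QF b q) (t : ℤ) (x y : A) : b x (t • y) = t * b x y := by
  rw [h.symm, smul_left h, h.symm]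

theorem q_smul (h : QF b q) (t : ℤ) (x : A) : q (t • x) = t ^ 2 * q x := by
  have h1 := h.self (t • x)
  rw [smul_left h, smul_right h, h.self x] at h1
  have : (2 : ℤ) * q (t • x) = 2 * (t ^ 2 * q x) := by rw [← h1]; ring
  linarith

theorem sub_left (h : QF b q) (x y z : A) : b (x - y) z = b x z - b y z :=
  map_sub (lin h z) x y

/-- changing the argument by a multiple of `N` -/
theorem q_congr (h : QF b q) (N : ℤ) (x z : A) : N ∣ q (x + N • z) - q x := by
  rw [h.q_add, q_smul h, smul_right h]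
  exact ⟨N * q z + b x z, by ring⟩

end qf

/-- Hensel for one prime -/
theorem hensel {A : Type} [AddCommGroup A] {b : A → A → ℤ} {q : A → ℤ} (h : QF b q)
    (Y : AddSubgroup A) (w0 : A) (c : ℤ) (p : ℕ) (hp : p.Prime) (y y' : A) (hy : y ∈ Y)
    (hy' : y' ∈ Y) (h1 : (p : ℤ) ∣ q (w0 + y) - c) (h2 : ¬ (p : ℤ) ∣ b (w0 + y) y') (j : ℕ) :
    ∃ v ∈ Y, (p : ℤ) ^ (j + 1) ∣ q (w0 + v) - c ∧ ∃ s ∈ Y, v - y = (p : ℤ) • s := by
  induction j with
  | zero => exact ⟨y, hy, by simpa using h1, 0, Y.zero_mem, by simp⟩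
  | succ j ih =>
    obtain ⟨v, hv, ⟨m, hm⟩, s, hs, hvs⟩ := ih
    have hb : ¬ (p : ℤ) ∣ b (w0 + v) y' := by
      intro h3
      apply h2
      have e : w0 + v = (w0 + y) + (p : ℤ) • s := by rw [← hvs]; abel
      rw [e, h.add_left, smul_left h] at h3
      exact (Int.dvd_add_left (Dvd.intro _ rfl)).1 h3
    have hcop : IsCoprime (b (w0 + v) y') (p : ℤ) := by
      rw [isCoprime_comm]
      exact (Nat.prime_iff_prime_int.1 hp).coprime_iff_not_dvd.2 hb
    obtain ⟨α, β, hαβ⟩ := hcop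
    refine ⟨v + ((p : ℤ) ^ (j + 1)) • ((-m * α) • y'), Y.add_mem hv (Y.zsmul_mem
      (Y.zsmul_mem hy' _) _), ?_, s + ((p : ℤ) ^ j) • ((-m * α) • y'), Y.add_mem hs (Y.zsmul_mem
      (Y.zsmul_mem hy' _) _), ?_⟩
    · rw [← add_assoc, h.q_add, q_smul h, smul_right h, smul_right h]
      have e1 : q (w0 + v) + ((p : ℤ) ^ (j + 1)) ^ 2 * q ((-m * α) • y') +
          (p : ℤ) ^ (j + 1) * (-m * α * b (w0 + v) y') - c =
          (p : ℤ) ^ (j + 1) * m + ((p : ℤ) ^ (j + 1)) ^ 2 * q ((-m * α) • y') +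
          (p : ℤ) ^ (j + 1) * (-m * α * b (w0 + v) y') := by
        rw [← hm]; ring
      rw [e1]
      refine ⟨m * β + (p : ℤ) ^ j * q ((-m * α) • y'), ?_⟩
      have e2 : α * b (w0 + v) y' = 1 - β * p := by linarith
      have e3 : -m * α * b (w0 + v) y' = -m * (1 - β * p) := by rw [← e2]; ring
      rw [e3]
      ring
    · have e4 : (p : ℤ) • (((p : ℤ) ^ j) • ((-m * α) • y')) =
          ((p : ℤ) ^ (j + 1)) • ((-m * α) • y') := by
        rw [smul_smul (p : ℤ), ← pow_succ']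
      rw [smul_add, ← hvs, e4]
      abel

theorem b_HEN : B_HEN := by
  intro A _ b q Y w0 c N
  induction N using Nat.recOnPosPrimePosCoprime with
  | prime_pow p n hp hn =>
    intro y y' h _ hyp
    obtain ⟨j, rfl⟩ : ∃ j, n = j + 1 := ⟨n - 1, by omega⟩
    obtain ⟨h1, h2, h3, h4⟩ := hyp p hp (dvd_pow_self p (by omega))
    obtain ⟨v, hv, h5, h6⟩ := hensel h Y w0 c p hp (y p) (y' p) h1 h2 h3 h4 j
    refine ⟨v, hv, by exact_mod_cast h5, ?_⟩
    intro p' hp' hd
    have : p' = p := (Nat.prime_dvd_prime_iff_eq hp' hp).1 (hp'.dvd_of_dvd_pow hd)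
    rw [this]
    exact h6
  | zero =>
    intro y y' h h0
    omega
  | one =>
    intro y y' h _ _
    refine ⟨0, Y.zero_mem, by simp, ?_⟩
    intro p hp hd
    exact absurd (Nat.dvd_one.1 hd) hp.one_lt.ne'
  | coprime N1 N2 h1 h2 hc ih1 ih2 =>
    intro y y' h h0 hyp
    obtain ⟨v1, hv1, d1, e1⟩ := ih1 y y' h (by omega) (fun p hp hd => hyp p hp (hd.mul_right _))
    obtain ⟨v2, hv2, d2, e2⟩ := ih2 y y' h (by omega) (fun p hp hd => hyp p hp (hd.mul_left _))
    have hci : IsCoprime (N1 : ℤ) (N2 : ℤ) := Nat.isCoprime_iff_coprime.2 hc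
    obtain ⟨α, β, hαβ⟩ := hci
    obtain ⟨v, hv⟩ : ∃ v, v = v1 + (N1 : ℤ) • (α • (v2 - v1)) := ⟨_, rfl⟩
    have hv' : v = v2 + (N2 : ℤ) • (β • (v1 - v2)) := by
      rw [hv, smul_smul, smul_smul]
      have e3 : v2 = v1 + (α * N1 + β * N2) • (v2 - v1) := by
        rw [hαβ, one_smul]; abel
      have e4 : (N2 : ℤ) * β = β * N2 := mul_comm _ _
      have e5 : (N1 : ℤ) * α = α * N1 := mul_comm _ _
      conv_rhs => rw [e3]
      rw [e4, e5, add_smul]
      have e6 : (β * (N2 : ℤ)) • (v1 - (v1 + ((α * (N1 : ℤ)) • (v2 - v1) +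
          (β * (N2 : ℤ)) • (v2 - v1)))) = -((β * (N2 : ℤ)) • (v2 - v1)) := by
        rw [← add_smul, hαβ, one_smul, ← smul_neg]
        congr 1
        abel
      rw [e6]
      abel
    refine ⟨v, ?_, ?_, ?_⟩
    · rw [hv]
      exact Y.add_mem hv1 (Y.zsmul_mem (Y.zsmul_mem (Y.sub_mem hv2 hv1) _) _)
    · push_cast
      refine hciMul hαβ ?_ ?_
      · have k1 := q_congr h (N1 : ℤ) (w0 + v1) (α • (v2 - v1))
        rw [add_assoc, ← hv] at k1
        have := dvd_add k1 d1
        simpa using this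
      · have k1 := q_congr h (N2 : ℤ) (w0 + v2) (β • (v1 - v2))
        rw [add_assoc, ← hv'] at k1
        have := dvd_add k1 d2
        simpa using this
    · intro p hp hd
      rcases (Nat.Prime.dvd_mul hp).1 hd with hd | hd
      · obtain ⟨s, hs, hs'⟩ := e1 p hp hd
        obtain ⟨k, hk⟩ := hd
        refine ⟨s + (k : ℤ) • (α • (v2 - v1)), Y.add_mem hs (Y.zsmul_mem (Y.zsmul_mem
          (Y.sub_mem hv2 hv1) _) _), ?_⟩
        rw [smul_add, ← hs', smul_smul, hv, hk]
        push_cast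
        abel
      · obtain ⟨s, hs, hs'⟩ := e2 p hp hd
        obtain ⟨k, hk⟩ := hd
        refine ⟨s + (k : ℤ) • (β • (v1 - v2)), Y.add_mem hs (Y.zsmul_mem (Y.zsmul_mem
          (Y.sub_mem hv1 hv2) _) _), ?_⟩
        rw [smul_add, ← hs', smul_smul, hv', hk]
        push_cast
        abel
where
  hciMul {a b c α β : ℤ} (h : α * a + β * b = 1) (h1 : a ∣ c) (h2 : b ∣ c) : a * b ∣ c :=
    IsCoprime.mul_dvd ⟨α, β, h⟩ h1 h2

theorem b_SPN : B_SPN := by
  intro A _ b q p u w u' w' H h hp hu hu' c1 c2 c3 c4 hpH hH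
  have : Fact p.Prime := ⟨hp⟩
  have zz : ∀ x : ℤ, (p : ℤ) ∣ x ↔ ((x : ℤ) : ZMod p) = 0 := fun x =>
    (ZMod.intCast_zmod_eq_zero_iff_dvd x p).symm
  -- the criterion
  have key : ∀ v y : A, ((q v : ℤ) : ZMod p) = 1 → ((b v y : ℤ) : ZMod p) = 1 → v ∈ H := by
    intro v y h1 h2
    refine hH v ?_ ⟨y, ?_⟩
    · rw [zz]; push_cast; rw [h1]; ring
    · rw [zz, h2]
      exact one_ne_zero
  obtain ⟨a1, a2, a3⟩ := hu
  obtain ⟨b1, b2, b3⟩ := hu'
  rw [zz] at a1 a2 a3 b1 b2 b3 c1 c2 c3 c4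
  push_cast at a3 b3
  have s1 : ((b w u' : ℤ) : ZMod p) = 0 := c3
  have t1 : ((b u' u : ℤ) : ZMod p) = 0 := by rw [h.symm]; exact c1
  have t2 : ((b w' u : ℤ) : ZMod p) = 0 := by rw [h.symm]; exact c2
  have t3 : ((b u' w : ℤ) : ZMod p) = 0 := by rw [h.symm]; exact c3
  have t4 : ((b w' w : ℤ) : ZMod p) = 0 := by rw [h.symm]; exact c4
  have ww : ((b w w : ℤ) : ZMod p) = 0 := by rw [h.self]; push_cast; rw [a2]; ring
  have uu : ((b u u : ℤ) : ZMod p) = 0 := by rw [h.self]; push_cast; rw [a1]; ring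
  have ww' : ((b w' w' : ℤ) : ZMod p) = 0 := by rw [h.self]; push_cast; rw [b2]; ring
  have wu : ((b w u : ℤ) : ZMod p) = 1 := by rw [h.symm]; linear_combination a3
  have m1 : u + w ∈ H := by
    refine key _ w ?_ ?_
    · rw [h.q_add]; push_cast; linear_combination a1 + a2 + a3
    · rw [h.add_left]; push_cast; linear_combination a3 + ww
  have m2 : u' + w' ∈ H := by
    refine key _ w' ?_ ?_
    · rw [h.q_add]; push_cast; linear_combination b1 + b2 + b3
    · rw [h.add_left]; push_cast; linear_combination b3 + ww'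
  have m3 : u' + w' + u ∈ H := by
    refine key _ w' ?_ ?_
    · rw [h.q_add, h.q_add, h.add_left]; push_cast
      linear_combination b1 + b2 + b3 + a1 + t1 + t2
    · rw [h.add_left, h.add_left]; push_cast; linear_combination b3 + ww' + c2
  have hu0 : u ∈ H := by
    have := H.sub_mem m3 m2
    rwa [add_sub_cancel_left] at this
  have hw0 : w ∈ H := by
    have := H.sub_mem m1 hu0
    rwa [add_sub_cancel_left] at this
  rw [eq_top_iff]
  intro y _
  obtain ⟨y0, hy0⟩ : ∃ y0, y0 = y - (b y w) • u - (b y u) • w := ⟨_, rfl⟩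
  have r1 : ((b y0 u : ℤ) : ZMod p) = 0 := by
    rw [hy0, sub_left h, sub_left h, smul_left h, smul_left h]
    push_cast
    linear_combination -((b y w : ℤ) : ZMod p) * uu - ((b y u : ℤ) : ZMod p) * wu
  have r2 : ((b y0 w : ℤ) : ZMod p) = 0 := by
    rw [hy0, sub_left h, sub_left h, smul_left h, smul_left h]
    push_cast
    linear_combination -((b y w : ℤ) : ZMod p) * a3 - ((b y u : ℤ) : ZMod p) * ww
  have m4 : (u + (1 - q y0) • w) + y0 ∈ H := by
    refine key _ w ?_ ?_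
    · rw [h.q_add, h.q_add, q_smul h, smul_right h, h.add_left, smul_left h, h.symm u y0,
        h.symm w y0]
      push_cast
      linear_combination a1 + (1 - ((q y0 : ℤ) : ZMod p)) ^ 2 * a2 +
        (1 - ((q y0 : ℤ) : ZMod p)) * a3 + r1 + (1 - ((q y0 : ℤ) : ZMod p)) * r2
    · rw [h.add_left, h.add_left, smul_left h]
      push_cast
      linear_combination a3 + (1 - ((q y0 : ℤ) : ZMod p)) * ww + r2
  have m5 : y0 ∈ H := by
    have := H.sub_mem m4 (H.add_mem hu0 (H.zsmul_mem hw0 (1 - q y0)))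
    rwa [add_sub_cancel_left] at this
  have e : y = y0 + (b y w) • u + (b y u) • w := by rw [hy0]; abel
  rw [e]
  exact H.add_mem (H.add_mem m5 (H.zsmul_mem hu0 _)) (H.zsmul_mem hw0 _)

end Pool.Agent.CON.H70
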